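import Pool.Agent.Run7.h747.ZB.Defs

set_option autoImplicit false

/-!
# Piece SD of the interface ZB (MP_2eaf66_an)
-/

namespace Run7.h747.ZB

private lemma sd_summable_sq : Summable fun k : ℤ => 1 / (1 + |(k : ℝ)|) ^ 2 := by
  have h1 : Summable fun k : ℤ => 1 / (k : ℝ) ^ 2 + if k = 0 then (1 : ℝ) else 0 :=
    (Real.summable_one_div_int_pow.2 (by norm_num)).add (hasSum_ite_eq (0 : ℤ) (1 : ℝ)).summable
  refine Summable.of_nonneg_of_le (fun k => by positivity) (fun k => ?_) h1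
  by_cases hk : k = 0
  · subst hk
    norm_num
  · rw [if_neg hk, add_zero]
    have hk' : (k : ℝ) ≠ 0 := by exact_mod_cast hk
    have h0 : 0 < |(k : ℝ)| := abs_pos.2 hk'
    rw [← sq_abs (k : ℝ)]
    exact one_div_le_one_div_of_le (by positivity) (by nlinarith)

theorem t_SD : S_SD := by
  intro c hc
  obtain ⟨K0, h0⟩ := hc 0
  obtain ⟨K3, h3⟩ := hc 3
  have hK0 : 0 ≤ K0 := le_trans (by positivity) (h0 0)
  have hK3 : 0 ≤ K3 := le_trans (by positivity) (h3 0)
  have hS : ∀ n m : ℤ, Summable fun l : ℤ => ((|l| : ℤ) : ℂ) * (c (n - l) * c (m + l)) := by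
    intro n m
    have hb : Summable fun l : ℤ =>
        (|(n : ℝ)| + 1) * K3 * K0 * (1 / (1 + |((n - l : ℤ) : ℝ)|) ^ 2) :=
      (((Equiv.subLeft n).summable_iff (f := fun k : ℤ => 1 / (1 + |(k : ℝ)|) ^ 2)).2
        sd_summable_sq).mul_left _
    refine Summable.of_norm_bounded hb (fun l => ?_)
    have e1 : ‖(((|l| : ℤ) : ℂ))‖ = |(l : ℝ)| := by
      rw [Complex.norm_intCast, Int.cast_abs, abs_abs]
    have e2 : |(l : ℝ)| ≤ (|(n : ℝ)| + 1) * (1 + |((n - l : ℤ) : ℝ)|) := by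
      have : (l : ℝ) = (n : ℝ) - ((n - l : ℤ) : ℝ) := by push_cast; ring
      have t1 : |(l : ℝ)| ≤ |(n : ℝ)| + |((n - l : ℤ) : ℝ)| := by
        rw [this]
        exact abs_sub _ _
      nlinarith [abs_nonneg (n : ℝ), abs_nonneg (((n - l : ℤ) : ℝ))]
    have e3 : ‖c (n - l)‖ ≤ K3 / (1 + |((n - l : ℤ) : ℝ)|) ^ 3 := by
      rw [le_div_iff₀ (by positivity)]
      exact h3 (n - l)
    have e4 : ‖c (m + l)‖ ≤ K0 := by
      have := h0 (m + l)
      simpa using this
    have hpos : 0 < 1 + |((n - l : ℤ) : ℝ)| := by positivity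
    rw [norm_mul, norm_mul, e1]
    calc |(l : ℝ)| * (‖c (n - l)‖ * ‖c (m + l)‖)
        ≤ ((|(n : ℝ)| + 1) * (1 + |((n - l : ℤ) : ℝ)|)) *
          ((K3 / (1 + |((n - l : ℤ) : ℝ)|) ^ 3) * K0) :=
          mul_le_mul e2 (mul_le_mul e3 e4 (norm_nonneg _) (by positivity)) (by positivity)
            (by positivity)
      _ = (|(n : ℝ)| + 1) * K3 * K0 * (1 / (1 + |((n - l : ℤ) : ℝ)|) ^ 2) := by
          field_simp
  refine ⟨hS, fun n m => ?_⟩
  have hm : HasSum (fun l : ℤ => ((|l - 1| : ℤ) : ℂ) * (c (n - l) * c (m + l)))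
      (U c (n - 1) (m + 1)) := by
    have h := (Equiv.hasSum_iff (Equiv.subRight (1 : ℤ))).2 (hS (n - 1) (m + 1)).hasSum
    have e : (fun l : ℤ => ((|l - 1| : ℤ) : ℂ) * (c (n - l) * c (m + l))) =
        (fun l : ℤ => ((|l| : ℤ) : ℂ) * (c (n - 1 - l) * c (m + 1 + l))) ∘
          (Equiv.subRight (1 : ℤ)) := by
      funext l
      have a1 : n - 1 - (l - 1) = n - l := by ring
      have a2 : m + 1 + (l - 1) = m + l := by ring
      simp only [Function.comp_apply, Equiv.subRight_apply, a1, a2]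
    rw [e]
    exact h
  have hp : HasSum (fun l : ℤ => ((|l + 1| : ℤ) : ℂ) * (c (n - l) * c (m + l)))
      (U c (n + 1) (m - 1)) := by
    have h := (Equiv.hasSum_iff (Equiv.addRight (1 : ℤ))).2 (hS (n + 1) (m - 1)).hasSum
    have e : (fun l : ℤ => ((|l + 1| : ℤ) : ℂ) * (c (n - l) * c (m + l))) =
        (fun l : ℤ => ((|l| : ℤ) : ℂ) * (c (n + 1 - l) * c (m - 1 + l))) ∘
          (Equiv.addRight (1 : ℤ)) := by
      funext l
      have a1 : n + 1 - (l + 1) = n - l := by ring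
      have a2 : m - 1 + (l + 1) = m + l := by ring
      simp only [Function.comp_apply, Equiv.coe_addRight, a1, a2]
    rw [e]
    exact h
  have hz : HasSum (fun l : ℤ => ((|l| : ℤ) : ℂ) * (c (n - l) * c (m + l))) (U c n m) :=
    (hS n m).hasSum
  have hsum := (hm.sub (hz.mul_left 2)).add hp
  have hone : HasSum (fun l : ℤ => if l = 0 then 2 * (c n * c m) else 0) (2 * (c n * c m)) :=
    hasSum_ite_eq (0 : ℤ) _
  have e : (fun l : ℤ => ((|l - 1| : ℤ) : ℂ) * (c (n - l) * c (m + l)) -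
      2 * (((|l| : ℤ) : ℂ) * (c (n - l) * c (m + l))) +
      ((|l + 1| : ℤ) : ℂ) * (c (n - l) * c (m + l))) =
      fun l : ℤ => if l = 0 then 2 * (c n * c m) else 0 := by
    funext l
    by_cases hl : l = 0
    · subst hl
      simp
      ring
    · rw [if_neg hl]
      have hk : |l - 1| - 2 * |l| + |l + 1| = 0 := by
        rcases lt_or_gt_of_ne hl with h | h
        · rw [abs_of_neg h, abs_of_neg (by omega : l - 1 < 0), abs_of_nonpos (by omega : l + 1 ≤ 0)]
          ring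
        · rw [abs_of_pos h, abs_of_nonneg (by omega : 0 ≤ l - 1), abs_of_pos (by omega : 0 < l + 1)]
          ring
      have hk' : ((|l - 1| : ℤ) : ℂ) - 2 * ((|l| : ℤ) : ℂ) + ((|l + 1| : ℤ) : ℂ) = 0 := by
        exact_mod_cast hk
      linear_combination (c (n - l) * c (m + l)) * hk'
  rw [e] at hsum
  exact hsum.unique hone

end Run7.h747.ZB
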